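import Pool.Agent.Helper98.EY.StmtsC
import Pool.Agent.Helper98.EX.Basic

/-!
# Module ST0: first stage, redistribution to the first height profile
-/

namespace Pool.Agent.Helper98.EX

open Finset Filter
open scoped Topology

/-! ### configurations with prescribed heights -/

/-- configuration with prescribed heights -/
def st0_cfg (N : ℕ) (H : ℕ → ℕ) : Cfg N := fun i => decide (H i.val = H (i.val + 1) + 1)

theorem st0_occ (N : ℕ) (H : ℕ → ℕ) {y : ℕ} (hy : y < N) :
    occ (st0_cfg N H) y = decide (H y = H (y + 1) + 1) := by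
  rw [occ_lt hy]; rfl

theorem st0_ht (N : ℕ) (H : ℕ → ℕ) (h1 : ∀ y, H (y + 1) ≤ H y) (h2 : ∀ y, H y ≤ H (y + 1) + 1)
    (h3 : H N = 0) (y : ℕ) : ht (st0_cfg N H) y = H y := by
  have hanti : Antitone H := antitone_nat_of_succ_le h1
  have h5 : ∀ d, d ≤ N → ht (st0_cfg N H) (N - d) = H (N - d) := by
    intro d
    induction d with
    | zero =>
      intro _
      rw [Nat.sub_zero, h3, ht_ge le_rfl]
    | succ d ih =>
      intro hd
      have e : N - (d + 1) + 1 = N - d := by omega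
      have hlt : N - (d + 1) < N := by omega
      rw [ht_succ _ hlt, e, ih (by omega), st0_occ N H hlt, e]
      have a1 := h1 (N - (d + 1))
      have a2 := h2 (N - (d + 1))
      rw [e] at a1 a2
      by_cases h : H (N - (d + 1)) = H (N - d) + 1
      · rw [decide_eq_true h, if_pos rfl]; omega
      · rw [decide_eq_false h]
        simp only [Bool.false_eq_true, if_false]
        omega
  rcases le_or_gt y N with h | h
  · have := h5 (N - y) (by omega)
    have e : N - (N - y) = y := by omega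
    rwa [e] at this
  · rw [ht_ge h.le]
    have := hanti h.le
    omega

/-! ### the highest profile below given heights -/

/-- infimum of the constraints -/
noncomputable def st0_I (p : ℕ) (bb h : ℕ → ℕ) (y : ℕ) : ℕ :=
  (Finset.range (p + 2)).inf' ⟨0, by simp⟩ (fun j => h j + (bb j - y))

theorem st0_I_le {p : ℕ} {bb h : ℕ → ℕ} (y : ℕ) {j : ℕ} (hj : j ≤ p + 1) :
    st0_I p bb h y ≤ h j + (bb j - y) :=
  Finset.inf'_le _ (Finset.mem_range.2 (by omega))

theorem st0_le_I {p : ℕ} {bb h : ℕ → ℕ} {y v : ℕ} (hv : ∀ j, j ≤ p + 1 → v ≤ h j + (bb j - y)) :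
    v ≤ st0_I p bb h y := by
  apply Finset.le_inf'
  intro j hj
  exact hv j (by rw [Finset.mem_range] at hj; omega)

/-- the profile -/
noncomputable def st0_H (p a b : ℕ) (bb h : ℕ → ℕ) (y : ℕ) : ℕ :=
  min (st0_I p bb h y) (max (a - y) b)

theorem st0_H1 (p a b : ℕ) (bb h : ℕ → ℕ) (y : ℕ) :
    st0_H p a b bb h (y + 1) ≤ st0_H p a b bb h y := by
  unfold st0_H
  have : st0_I p bb h (y + 1) ≤ st0_I p bb h y := by
    apply st0_le_I
    intro j hj
    have := st0_I_le (bb := bb) (h := h) (y + 1) hj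
    omega
  omega

theorem st0_H2 (p a b : ℕ) (bb h : ℕ → ℕ) (y : ℕ) :
    st0_H p a b bb h y ≤ st0_H p a b bb h (y + 1) + 1 := by
  unfold st0_H
  have : st0_I p bb h y - 1 ≤ st0_I p bb h (y + 1) := by
    apply st0_le_I
    intro j hj
    have := st0_I_le (bb := bb) (h := h) y hj
    omega
  omega

theorem st0_I_mid {p : ℕ} {bb h : ℕ → ℕ} (hb : ∀ i j, i ≤ j → j ≤ p + 1 → bb i ≤ bb j)
    (hh : ∀ i j, i ≤ j → j ≤ p + 1 → h j ≤ h i)
    (hl : ∀ i j, i ≤ j → j ≤ p + 1 → h i ≤ h j + (bb j - bb i)) {i y : ℕ} (hi : i ≤ p)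
    (h1 : bb i ≤ y) (h2 : y ≤ bb (i + 1)) :
    st0_I p bb h y = min (h i) (h (i + 1) + (bb (i + 1) - y)) := by
  apply le_antisymm
  · have a := st0_I_le (bb := bb) (h := h) y (by omega : i ≤ p + 1)
    have b := st0_I_le (bb := bb) (h := h) y (by omega : i + 1 ≤ p + 1)
    omega
  · apply st0_le_I
    intro j hj
    rcases le_or_gt j i with hji | hji
    · have := hh j i hji (by omega)
      omega
    · have a := hl (i + 1) j (by omega) hj
      have b := hb (i + 1) j (by omega) hj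
      omega

/-! ### the main combinatorial statement -/

theorem st0_main {N p k R Q jk : ℕ} {bb h : ℕ → ℕ} (hbN : bb (p + 1) = N)
    (hbs : ∀ i, i ≤ p → bb i ≤ bb (i + 1))
    (hr1 : ∀ i, i ≤ p → h (i + 1) + Q ≤ h i)
    (hr2 : ∀ i, i ≤ p → h i + Q ≤ h (i + 1) + (bb (i + 1) - bb i))
    (hN0 : h (p + 1) = 0) (hjk : jk ≤ p) (hA : bb jk ≤ k)
    (hh1 : ∀ i, i ≤ jk → h i = (k - bb i) + i * R)
    (hh2 : ∀ i, jk < i → i ≤ p + 1 → h i = (p + 1 - i) * R) :
    ∃ Y : Cfg N, (∀ y, ht Y y ≤ (k - y) + (p + 1) * R) ∧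
      (∀ i, i ≤ p → ht Y (bb i) = h i) ∧
      cnt Y (bb jk) (xi bb h jk) ≤
        min (bb (jk + 1) - (h jk - h (jk + 1)) - bb jk) (h jk - h (jk + 1)) - R ∧
      ∀ i, i ≤ p → i ≠ jk → (∀ y, bb i ≤ y → y < bb i + Q → occ Y y = false) ∧
        (∀ y, y < bb (i + 1) → bb (i + 1) ≤ y + Q → occ Y y = true) ∧
        cnt Y (bb i) (xi bb h i) = 0 := by
  -- monotonicity
  have hb : ∀ i j, i ≤ j → j ≤ p + 1 → bb i ≤ bb j := by
    intro i j hij
    induction j, hij using Nat.le_induction with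
    | base => intro _; exact le_rfl
    | succ j hj ih => intro hj'; exact (ih (by omega)).trans (hbs j (by omega))
  have hh : ∀ i j, i ≤ j → j ≤ p + 1 → h j ≤ h i := by
    intro i j hij
    induction j, hij using Nat.le_induction with
    | base => intro _; exact le_rfl
    | succ j hj ih =>
      intro hj'
      have := hr1 j (by omega)
      have := ih (by omega)
      omega
  have hl : ∀ i j, i ≤ j → j ≤ p + 1 → h i ≤ h j + (bb j - bb i) := by
    intro i j hij
    induction j, hij using Nat.le_induction with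
    | base => intro _; omega
    | succ j hj ih =>
      intro hj'
      have a := hr2 j (by omega)
      have b := ih (by omega)
      have c := hb i j hj (by omega)
      have d := hbs j (by omega)
      omega
  obtain ⟨a, ha⟩ : ∃ a, a = k + jk * R + R := ⟨_, rfl⟩
  obtain ⟨b, hbd⟩ : ∃ b, b = (p - jk) * R + R := ⟨_, rfl⟩
  have hHN : st0_H p a b bb h N = 0 := by
    unfold st0_H
    have := st0_I_le (bb := bb) (h := h) N (le_refl (p + 1))
    rw [hbN, hN0] at this
    omega
  have hht := st0_ht N (st0_H p a b bb h) (st0_H1 p a b bb h) (st0_H2 p a b bb h) hHN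
  -- the cut function is not active in the other intervals
  have hG : ∀ i, i ≤ p → i ≠ jk → ∀ y, bb i ≤ y → y ≤ bb (i + 1) →
      st0_H p a b bb h y = min (h i) (h (i + 1) + (bb (i + 1) - y)) := by
    intro i hi hne y h1 h2
    unfold st0_H
    rw [st0_I_mid hb hh hl hi h1 h2]
    rcases lt_or_gt_of_ne hne with hlt | hgt
    · have e1 := hh1 (i + 1) (by omega)
      have e2 : (i + 1) * R ≤ jk * R := Nat.mul_le_mul_right R (by omega)
      have e3 := hb (i + 1) jk (by omega) (by omega)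
      omega
    · have e1 := hh2 i hgt (by omega)
      have e2 : (p + 1 - i) * R ≤ (p - jk) * R := Nat.mul_le_mul_right R (by omega)
      omega
  have hu := hh1 jk le_rfl
  have hv := hh2 (jk + 1) (by omega) (by omega)
  have hv' : p + 1 - (jk + 1) = p - jk := by omega
  rw [hv'] at hv
  have hmid : ∀ y, bb jk ≤ y → y ≤ bb (jk + 1) → st0_H p a b bb h y =
      min (min (h jk) (h (jk + 1) + (bb (jk + 1) - y))) (max (a - y) b) := by
    intro y h1 h2
    unfold st0_H
    rw [st0_I_mid hb hh hl hjk h1 h2]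
  have hat : ∀ i, i ≤ p → st0_H p a b bb h (bb i) = h i := by
    intro i hi
    have r2 := hr2 i hi
    have bs := hbs i hi
    by_cases hij : i = jk
    · subst hij
      rw [hmid _ le_rfl bs]
      omega
    · rw [hG i hi hij _ le_rfl bs]
      omega
  refine ⟨st0_cfg N (st0_H p a b bb h), ?_, ?_, ?_, ?_⟩
  · intro y
    rw [hht]
    have e0 : st0_H p a b bb h y ≤ max (a - y) b := min_le_right _ _
    have e1 : jk * R ≤ p * R := Nat.mul_le_mul_right R hjk
    have e2 : (p - jk) * R ≤ p * R := Nat.mul_le_mul_right R (by omega)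
    have e3 : (p + 1) * R = p * R + R := by ring
    omega
  · intro i hi
    rw [hht, hat i hi]
  · have bs := hbs jk hjk
    have r1 := hr1 jk hjk
    have r2 := hr2 jk hjk
    have bN := hb (jk + 1) (p + 1) (by omega) le_rfl
    have hx1 : bb jk ≤ xi bb h jk := by unfold xi; omega
    have hx2 : xi bb h jk ≤ bb (jk + 1) := by unfold xi; omega
    have hc := ht_cnt (st0_cfg N (st0_H p a b bb h)) hx1 (by omega)
    rw [hht, hht, hat jk hjk, hmid _ hx1 hx2] at hc
    unfold xi at hc ⊢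
    omega
  · intro i hi hne
    have bs := hbs i hi
    have r1 := hr1 i hi
    have r2 := hr2 i hi
    have bN := hb (i + 1) (p + 1) (by omega) le_rfl
    refine ⟨?_, ?_, ?_⟩
    · intro y h1 h2
      have hy : y < N := by omega
      rw [st0_occ _ _ hy, hG i hi hne y h1 (by omega), hG i hi hne (y + 1) (by omega) (by omega)]
      rw [decide_eq_false_iff_not]
      omega
    · intro y h1 h2
      have hy : y < N := by omega
      rw [st0_occ _ _ hy, hG i hi hne y (by omega) (by omega),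
        hG i hi hne (y + 1) (by omega) (by omega)]
      rw [decide_eq_true_iff]
      omega
    · have hx1 : bb i ≤ xi bb h i := by unfold xi; omega
      have hx2 : xi bb h i ≤ bb (i + 1) := by unfold xi; omega
      have hc := ht_cnt (st0_cfg N (st0_H p a b bb h)) hx1 (by omega)
      rw [hht, hht, hat i hi, hG i hi hne _ hx1 hx2] at hc
      unfold xi at hc ⊢
      omega

/-! ### numeric facts -/

theorem st0_num : ∃ N0 : ℕ, ∀ N : ℕ, N0 ≤ N → 1 ≤ Real.log N ∧
    ⌈Real.log N ^ 8⌉₊ ≤ N := by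
  have h1 : Tendsto (fun n : ℕ => Real.log (n : ℝ)) atTop atTop :=
    Real.tendsto_log_atTop.comp tendsto_natCast_atTop_atTop
  have h2 : ∀ᶠ n : ℕ in atTop, 1 ≤ Real.log (n : ℝ) := h1.eventually_ge_atTop 1
  have h3 : ∀ᶠ x : ℝ in atTop, ‖Real.log x ^ 8‖ ≤ 1 * ‖id x‖ :=
    (Real.isLittleO_pow_log_id_atTop (n := 8)).bound one_pos
  have h4 : ∀ᶠ n : ℕ in atTop, ‖Real.log (n : ℝ) ^ 8‖ ≤ 1 * ‖id (n : ℝ)‖ :=
    tendsto_natCast_atTop_atTop.eventually h3
  obtain ⟨N0, hN0⟩ := eventually_atTop.1 (h2.and h4)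
  refine ⟨N0, fun N hN => ?_⟩
  obtain ⟨a, b⟩ := hN0 N hN
  refine ⟨a, ?_⟩
  have hp : 0 ≤ Real.log (N : ℝ) ^ 8 := by positivity
  rw [Real.norm_of_nonneg hp, one_mul, id, Real.norm_of_nonneg (Nat.cast_nonneg N)] at b
  exact Nat.ceil_le.2 b

theorem st_ST0 (h1 : ST_MSR) (h2 : ST_HZN) : ST_ST0 := by
  intro C1 c hC1 hc
  obtain ⟨N1, hN1⟩ := h1 C1 hC1
  obtain ⟨N2, hN2⟩ := h2 c hc
  obtain ⟨N3, hN3⟩ := st0_num
  refine ⟨max (max N1 N2) (max N3 3), ?_⟩
  intro N p w k q bb r l hN hk1 hk2 hBE hSep hq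
  have hNa : N1 ≤ N := by omega
  have hNb : N2 ≤ N := by omega
  have hNc : N3 ≤ N := by omega
  have hNd : 3 ≤ N := by omega
  obtain ⟨hL, hL8⟩ := hN3 N hNc
  obtain ⟨z0, -, zR, -, -⟩ := hN2 N p k bb hNb hk1 hk2 hBE.bl hSep hBE.card
  obtain ⟨zRa, zRb⟩ := zR
  -- powers of the logarithm
  have hp1 : Real.log (N : ℝ) ^ 241 ≤ Real.log (N : ℝ) ^ 243 := pow_le_pow_right₀ hL (by norm_num)
  have hp2 : Real.log (N : ℝ) ^ 232 ≤ Real.log (N : ℝ) ^ 243 := pow_le_pow_right₀ hL (by norm_num)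
  have hp3 : 1 ≤ Real.log (N : ℝ) ^ 243 := one_le_pow₀ hL
  have hp4 : 0 ≤ Real.log (N : ℝ) ^ 231 := by positivity
  have hQ : (QQ N : ℝ) ≤ 2 * Real.log (N : ℝ) ^ 243 := by
    unfold QQ
    have := (Nat.ceil_lt_add_one (by positivity : 0 ≤ Real.log (N : ℝ) ^ 241)).le
    linarith
  have hR : 2 * Real.log (N : ℝ) ^ 243 ≤ (rs N : ℝ) := by
    unfold rs
    have := Nat.le_ceil (2 * Real.log (N : ℝ) ^ 243)
    push_cast
    linarith
  -- structure of the barriers
  have hbs : ∀ i, i ≤ p → bb i ≤ bb (i + 1) := by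
    intro i hi
    have := hBE.bl.gap i hi
    have h0 : 0 ≤ (N : ℝ) ^ (1 / 2 : ℝ) := by positivity
    exact_mod_cast (by linarith : (bb i : ℝ) ≤ bb (i + 1))
  have hbN := hBE.bl.bN
  have hb0 := hBE.bl.b0
  have hkN : k ≤ N := by
    have hNpos : (0 : ℝ) < N := by exact_mod_cast (by omega : 0 < N)
    have : (k : ℝ) ≤ N := by nlinarith
    exact_mod_cast this
  have hkN' : k < N := by
    have hNpos : (0 : ℝ) < N := by exact_mod_cast (by omega : 0 < N)
    have : (k : ℝ) < N := by nlinarith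
    exact_mod_cast this
  obtain ⟨jk, hjk⟩ : ∃ jk, jk = Nat.findGreatest (fun i => bb i ≤ k) p := ⟨_, rfl⟩
  have hjp : jk ≤ p := by rw [hjk]; exact Nat.findGreatest_le p
  have hjA : bb jk ≤ k := by
    rw [hjk]
    exact Nat.findGreatest_spec (P := fun i => bb i ≤ k) (Nat.zero_le p)
      (by rw [hb0]; exact Nat.zero_le k)
  have hjB : ∀ i, jk < i → i ≤ p + 1 → ¬ bb i ≤ k := by
    intro i hi1 hi2
    rcases Nat.lt_or_ge p i with h | h
    · have : i = p + 1 := by omega
      rw [this, hbN]; omega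
    · exact Nat.findGreatest_is_greatest (P := fun i => bb i ≤ k) (n := p)
        (by rw [← hjk]; exact hi1) h
  have hmono : ∀ i, i ≤ jk → bb i ≤ bb jk := by
    intro i hi
    have aux : ∀ j, i ≤ j → j ≤ jk → bb i ≤ bb j := by
      intro j hij
      induction j, hij using Nat.le_induction with
      | base => intro _; exact le_rfl
      | succ j hj ih => intro hj'; exact (ih (by omega)).trans (hbs j (by omega))
    exact aux jk hi le_rfl
  obtain ⟨h, hh⟩ : ∃ h, h = hz0 N p k bb := ⟨_, rfl⟩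
  rw [← hh] at z0 zRa zRb
  have hh1 : ∀ i, i ≤ jk → h i = (k - bb i) + i * rs N := by
    intro i hi
    rw [hh]; unfold hz0
    rw [if_pos ((hmono i hi).trans hjA)]
  have hh2 : ∀ i, jk < i → i ≤ p + 1 → h i = (p + 1 - i) * rs N := by
    intro i hi1 hi2
    rw [hh]; unfold hz0
    rw [if_neg (hjB i hi1 hi2)]
  have hr1 : ∀ i, i ≤ p → h (i + 1) + QQ N ≤ h i := by
    intro i hi
    have := (zRb i hi).1
    exact_mod_cast (by linarith : (h (i + 1) : ℝ) + QQ N ≤ h i)
  have hr2 : ∀ i, i ≤ p → h i + QQ N ≤ h (i + 1) + (bb (i + 1) - bb i) := by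
    intro i hi
    have := (zRb i hi).2
    have e : ((bb (i + 1) - bb i : ℕ) : ℝ) = (bb (i + 1) : ℝ) - bb i := Nat.cast_sub (hbs i hi)
    have : (h i : ℝ) + QQ N ≤ h (i + 1) + ((bb (i + 1) - bb i : ℕ) : ℝ) := by rw [e]; linarith
    exact_mod_cast this
  obtain ⟨Y, hY1, hY2, hY3, hY4⟩ := st0_main (R := rs N) (Q := QQ N) hbN hbs hr1 hr2 zRa hjp hjA
    hh1 hh2
  obtain ⟨n, hn⟩ : ∃ n, n = min (bb (jk + 1) - (h jk - h (jk + 1)) - bb jk)
    (h jk - h (jk + 1)) - rs N := ⟨_, rfl⟩
  rw [← hn] at hY3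
  have hRoom : Room N p bb h (Real.log N ^ 243) := by
    refine ⟨zRa, fun i hi => ?_⟩
    obtain ⟨a, b⟩ := zRb i hi
    constructor <;> linarith
  have hI0 : ∀ i, i ∈ ({jk} : Finset ℕ) → i ≤ p ∧
      (n : ℝ) + Real.log N ^ 232 ≤ (h i : ℝ) - h (i + 1) ∧
      (n : ℝ) + Real.log N ^ 232 ≤ ((bb (i + 1) : ℝ) - bb i) - ((h i : ℝ) - h (i + 1)) := by
    intro i hi
    rw [Finset.mem_singleton] at hi
    subst hi
    have a := (zRb i hjp).1
    have b := (zRb i hjp).2
    have r1 := hr1 i hjp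
    have r2 := hr2 i hjp
    have bs := hbs i hjp
    refine ⟨hjp, ?_, ?_⟩
    · rcases Nat.eq_zero_or_pos n with h0 | h0
      · rw [h0]; push_cast; linarith
      · have : n + rs N + h (i + 1) ≤ h i := by omega
        have : (n : ℝ) + rs N + h (i + 1) ≤ h i := by exact_mod_cast this
        linarith
    · rcases Nat.eq_zero_or_pos n with h0 | h0
      · rw [h0]; push_cast; linarith
      · have : n + rs N + bb i + h i ≤ bb (i + 1) + h (i + 1) := by omega
        have : (n : ℝ) + rs N + bb i + h i ≤ bb (i + 1) + h (i + 1) := by exact_mod_cast this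
        linarith
  obtain ⟨σ, hσ1, hσ2⟩ := hN1 N p w k n bb h {jk} r l hNa hBE z0 hkN hRoom hI0
  refine ⟨σ, 3 * ta3 N * (n + ⌈Real.log N ^ 8⌉₊), hσ1, ?_, ?_⟩
  · have hnN : n ≤ N := by
      have r2 := hr2 jk hjp
      have bs := hbs jk hjp
      have bN : bb (jk + 1) ≤ N := by
        have aux : ∀ j, jk + 1 ≤ j → j ≤ p + 1 → bb (jk + 1) ≤ bb j := by
          intro j hij
          induction j, hij using Nat.le_induction with
          | base => intro _; exact le_rfl
          | succ j hj ih => intro hj'; exact (ih (by omega)).trans (hbs j (by omega))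
        rw [← hbN]
        exact aux (p + 1) (by omega) le_rfl
      omega
    calc 3 * ta3 N * (n + ⌈Real.log N ^ 8⌉₊) ≤ 3 * ta3 N * (N + N) :=
          Nat.mul_le_mul_left _ (Nat.add_le_add hnN hL8)
      _ = 6 * N * ta3 N := by ring
  · intro ξ hξ0 hξ
    rw [← hh]
    have hmem : ξ ∈ Up k (Wcl N p bb h {jk} n) := by
      refine ⟨hξ0, Y, ?_, ?_⟩
      · intro i hi
        refine ⟨hY2 i hi, ?_, ?_⟩
        · intro hi'
          rw [Finset.mem_singleton] at hi'
          subst hi'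
          exact hY3
        · intro hi'
          rw [Finset.mem_singleton] at hi'
          obtain ⟨u1, u2, u3⟩ := hY4 i hi hi'
          refine ⟨u1, u2, ?_⟩
          rw [u3]; push_cast; exact hp4
      · intro y
        have e0 : ht Y 0 = k := by
          have := hY2 0 (Nat.zero_le p)
          rw [hb0, z0] at this
          exact this
        have e1 : ht Y y ≤ k := by
          rw [← e0]; exact ht_anti Y (Nat.zero_le y)
        have e2 := ht_le Y y
        have e3 := hY1 y
        rcases le_or_gt y N with hy | hy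
        · have e4 := hξ y hy
          have e5 : (p + 1) * rs N ≤ (p + 2) * rs N := Nat.mul_le_mul_right _ (by omega)
          omega
        · rw [ht_ge hy.le]; omega
    refine (hσ2 ξ hmem).trans ?_
    have : 0 ≤ (N : ℝ) ^ (-5 : ℝ) := by positivity
    linarith

end Pool.Agent.Helper98.EX
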